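import Pool.Agent.Helper92.BW.GoalsA

/-!
# Packet BW-TRI: triangular frames
-/

namespace Pool.Agent.Helper51.BW

open Finset Pool.Agent.Helper92.BW

theorem tri_aux : ∀ (m : ℕ) (A : Fin m → Fin m → ℝ) (τ : Fin m → ℝ) (β : ℝ), 0 ≤ β →
    (∀ j, A j j = 1 ∨ ((∀ l, A j l = 0) ∧ τ j = 0)) → (∀ j l, l < j → A j l = 0) →
    (∀ j l, |A j l| ≤ 1) → (∀ j, |τ j| ≤ β) →
    ∃ c : Fin m → ℝ, (∀ j, ∑ l, c l * A j l = τ j) ∧ ∑ l, |c l| ≤ (2 ^ m - 1) * β := by
  intro m
  induction m with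
  | zero =>
    intro A τ β hβ _ _ _ _
    exact ⟨fun _ => 0, fun j => j.elim0, by simp⟩
  | succ m ih =>
    intro A τ β hβ h1 h2 h3 h4
    obtain ⟨c', hc1, hc2⟩ := ih (fun j l => A j.succ l.succ) (fun j => τ j.succ) β hβ
      (fun j => (h1 j.succ).imp id fun h => ⟨fun l => h.1 l.succ, h.2⟩)
      (fun j l hjl => h2 _ _ (Fin.succ_lt_succ_iff.2 hjl)) (fun j l => h3 _ _) (fun j => h4 _)
    have hb : |∑ l : Fin m, c' l * A 0 l.succ| ≤ ∑ l, |c' l| := by
      refine (abs_sum_le_sum_abs _ _).trans (sum_le_sum fun l _ => ?_)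
      rw [abs_mul]
      exact mul_le_of_le_one_right (abs_nonneg _) (h3 _ _)
    have hsucc : ∀ c0 : ℝ, ∀ j : Fin m,
        ∑ l, (Fin.cons c0 c' : Fin (m + 1) → ℝ) l * A j.succ l = τ j.succ := by
      intro c0 j
      rw [Fin.sum_univ_succ]
      simp only [Fin.cons_zero, Fin.cons_succ]
      rw [h2 j.succ 0 (Fin.succ_pos j), mul_zero, zero_add]
      exact hc1 j
    have hpow : (2 : ℝ) ^ (m + 1) = 2 * 2 ^ m := by ring
    have hone : (1 : ℝ) ≤ 2 ^ m := one_le_pow₀ (by norm_num)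
    rcases h1 0 with h | ⟨h, h'⟩
    · refine ⟨Fin.cons (τ 0 - ∑ l : Fin m, c' l * A 0 l.succ) c', ?_, ?_⟩
      · intro j
        refine Fin.cases ?_ (fun j => hsucc _ j) j
        rw [Fin.sum_univ_succ]
        simp only [Fin.cons_zero, Fin.cons_succ]
        rw [h]
        ring
      · rw [Fin.sum_univ_succ]
        simp only [Fin.cons_zero, Fin.cons_succ]
        have e1 := abs_sub (τ 0) (∑ l : Fin m, c' l * A 0 l.succ)
        have e2 := h4 0
        rw [hpow]
        nlinarith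
    · refine ⟨Fin.cons 0 c', ?_, ?_⟩
      · intro j
        refine Fin.cases ?_ (fun j => hsucc _ j) j
        rw [h']
        exact sum_eq_zero fun l _ => by rw [h l, mul_zero]
      · rw [Fin.sum_univ_succ]
        simp only [Fin.cons_zero, Fin.cons_succ, abs_zero, zero_add]
        refine hc2.trans (mul_le_mul_of_nonneg_right ?_ hβ)
        rw [hpow]
        linarith

theorem tri : TriStmt := by
  intro n m g y h1 h2 h3 τ β hβ hτ hg
  obtain ⟨c, hc1, hc2⟩ := tri_aux m (fun j l => ip (g j) (y l)) τ β hβ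
    (fun j => (h1 j).imp id fun h => ⟨fun l => by simp [ip, h.1], hg j h.1⟩) h2 h3 hτ
  refine ⟨c, fun j => ?_, hc2⟩
  rw [← hc1 j]
  simp only [ip]
  simp only [mul_sum]
  rw [sum_comm]
  exact sum_congr rfl fun l _ => sum_congr rfl fun x _ => by ring

end Pool.Agent.Helper51.BW
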